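import Pool.Agent.Z695.Sel
import Pool.Agent.Y664.Z.LinAlg

/-!
# The Selmer group of the second isogeny (`t_SELB`)
-/

set_option autoImplicit false
set_option linter.all false

open Finset

namespace Pool.Agent.Y421.Z695

open Pool.Agent.Y695
open Pool.Agent.Z695 (Fam xw)
open Pool.Agent.Z700 (pr Yd lres)

section

variable {p : ℕ} [hp : Fact p.Prime]

lemma nd125 (h5 : p ≠ 5) : ¬ (p : ℤ) ∣ 125 := by
  intro h3
  have h4 : p ∣ 5 ^ 3 := by
    have : (p : ℤ) ∣ ((5 ^ 3 : ℕ) : ℤ) := by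
      norm_num
      exact h3
    exact_mod_cast this
  exact h5 ((Nat.prime_dvd_prime_iff_eq hp.out (by norm_num)).1 (hp.out.dvd_of_dvd_pow h4))

/-- **the local condition at a prime dividing `D` but not `d`** -/
theorem locC2 {D d : ℤ} (hsf : Squarefree D) (hpD : (p : ℤ) ∣ D) (h2 : p ≠ 2) (h5' : p ≠ 5)
    (hm : IsSquare (5 : ZMod p)) (hd : ¬ (p : ℤ) ∣ d)
    (h : LocA ℚ_[p] (22 * (D : ℚ_[p])) (125 * (D : ℚ_[p]) ^ 2) (d : ℚ_[p])) :
    IsSquare (d : ZMod p) := by
  have hD0 := hsf.ne_zero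
  have hDp : (D : ℚ_[p]) ≠ 0 := by exact_mod_cast hD0
  have hvD : ((D : ℚ_[p])).valuation = 1 := val_squarefree hsf hpD
  have hd0 : (d : ℚ_[p]) ≠ 0 := by
    have : d ≠ 0 := by
      rintro rfl
      exact hd (dvd_zero _)
    exact_mod_cast this
  have h125 : IsSquare (125 : ℚ_[p]) := by
    have := sq_int (p := p) h2 (n := 125) (nd125 h5') (by
      push_cast
      obtain ⟨s, hs⟩ := hm
      exact ⟨5 * s, by linear_combination 25 * hs⟩)
    push_cast at this
    exact this
  have n125 : ‖(125 : ℚ_[p])‖ = 1 := by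
    have := norm_int_unit (p := p) (n := 125) (nd125 h5')
    push_cast at this
    exact this
  have h1250 : (125 : ℚ_[p]) ≠ 0 := by
    intro h0
    rw [h0, norm_zero] at n125
    norm_num at n125
  have n22 : ‖(22 : ℚ_[p])‖ ≤ 1 := by
    have := norm_natc (p := p) 22
    exact_mod_cast this
  obtain ⟨i, hi⟩ := h125
  have hi0 : i ≠ 0 := by
    rintro rfl
    rw [mul_zero] at hi
    exact h1250 hi
  have hDn : 0 < ‖(D : ℚ_[p])‖ := norm_pos_iff.2 hDp
  apply sq_mod hd
  rcases h with h | h | ⟨X, Y, hX, hY, hs⟩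
  · exact h
  · obtain ⟨c, hc⟩ := h
    refine ⟨c / (i * D), ?_⟩
    rw [div_mul_div_comm, eq_div_iff (mul_ne_zero (mul_ne_zero hi0 hDp) (mul_ne_zero hi0 hDp))]
    linear_combination hc - ((D : ℚ_[p]) ^ 2 * d) * hi
  · -- `X` is a square
    have hXs : IsSquare X := by
      have hvX : Even X.valuation := by
        have h1 := even_of_sq (mul_ne_zero hX hd0) hs
        rw [Padic.valuation_mul hX hd0, val_unit hd, add_zero] at h1
        exact h1
      rcases lt_trichotomy ‖X‖ ‖(D : ℚ_[p])‖ with h1 | h1 | h1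
      · -- small
        have h3 : ‖X + 22 * (D : ℚ_[p])‖ ≤ ‖(D : ℚ_[p])‖ := by
          rw [← sub_neg_eq_add]
          apply norm_sub_le' h1.le
          rw [norm_neg, norm_mul]
          calc ‖(22 : ℚ_[p])‖ * ‖(D : ℚ_[p])‖ ≤ 1 * ‖(D : ℚ_[p])‖ :=
                mul_le_mul_of_nonneg_right n22 (norm_nonneg _)
            _ = _ := one_mul _
        have hn : ‖125 * (D : ℚ_[p]) ^ 2‖ = ‖(D : ℚ_[p])‖ * ‖(D : ℚ_[p])‖ := by
          rw [norm_mul, n125, one_mul, norm_pow, pow_two]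
        have h4 : ‖X * (X + 22 * (D : ℚ_[p]))‖ < ‖125 * (D : ℚ_[p]) ^ 2‖ := by
          rw [norm_mul, hn]
          calc ‖X‖ * ‖X + 22 * (D : ℚ_[p])‖ ≤ ‖X‖ * ‖(D : ℚ_[p])‖ :=
                mul_le_mul_of_nonneg_left h3 (norm_nonneg _)
            _ < _ := mul_lt_mul_of_pos_right h1 hDn
        refine sq_of_mul hY (sq_near h2 (y := 125 * (D : ℚ_[p]) ^ 2) ⟨i * D, ?_⟩ ?_) ?_
        · linear_combination ((D : ℚ_[p]) ^ 2) * hi
        · have e : X ^ 2 + 22 * (D : ℚ_[p]) * X + 125 * (D : ℚ_[p]) ^ 2 -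
            125 * (D : ℚ_[p]) ^ 2 = X * (X + 22 * D) := by ring
          rw [e]
          exact h4
        · intro h0
          have e : X ^ 2 + 22 * (D : ℚ_[p]) * X + 125 * (D : ℚ_[p]) ^ 2 =
            125 * (D : ℚ_[p]) ^ 2 + X * (X + 22 * D) := by ring
          rw [e] at h0
          have h5 := norm_add_eq h4
          rw [h0, norm_zero, hn] at h5
          have : 0 < ‖(D : ℚ_[p])‖ * ‖(D : ℚ_[p])‖ := mul_pos hDn hDn
          linarith
      · exfalso
        have h3 := val_of_norm hX hDp h1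
        rw [h3, hvD] at hvX
        exact absurd hvX (by decide)
      · -- large
        have hXn : 0 < ‖X‖ := norm_pos_iff.2 hX
        have h4 : ‖22 * (D : ℚ_[p]) * X + 125 * (D : ℚ_[p]) ^ 2‖ < ‖X ^ 2‖ := by
          rw [norm_pow]
          apply norm_lt_add
          · rw [norm_mul, norm_mul]
            calc ‖(22 : ℚ_[p])‖ * ‖(D : ℚ_[p])‖ * ‖X‖ ≤ 1 * ‖(D : ℚ_[p])‖ * ‖X‖ := by
                  gcongr
              _ < ‖X‖ ^ 2 := by rw [one_mul, pow_two]; exact mul_lt_mul_of_pos_right h1 hXn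
          · rw [norm_mul, n125, one_mul, norm_pow]
            exact pow_lt_pow_left₀ h1 (norm_nonneg _) two_ne_zero
        refine sq_of_mul hY (sq_near h2 (y := X ^ 2) ⟨X, by ring⟩ ?_) ?_
        · have e : X ^ 2 + 22 * (D : ℚ_[p]) * X + 125 * (D : ℚ_[p]) ^ 2 - X ^ 2 =
            22 * (D : ℚ_[p]) * X + 125 * (D : ℚ_[p]) ^ 2 := by ring
          rw [e]
          exact h4
        · intro h0
          rw [add_assoc] at h0
          have h5 := norm_add_eq h4
          rw [h0, norm_zero, norm_pow] at h5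
          have : 0 < ‖X‖ ^ 2 := pow_pos hXn 2
          linarith
    obtain ⟨s, hs'⟩ := hXs
    obtain ⟨t, ht⟩ := hs
    have hs0 : s ≠ 0 := by
      rintro rfl
      rw [mul_zero] at hs'
      exact hX hs'
    refine ⟨t / s, ?_⟩
    rw [div_mul_div_comm, eq_div_iff (mul_ne_zero hs0 hs0), ← ht, hs']
    ring

/-- the square classes of the roots -/
theorem root_class (n2 : (2 : ZMod p) ≠ 0) (n5 : (5 : ZMod p) ≠ 0)
    (hm : IsSquare (-1 : ZMod p)) {w z : ZMod p} (hw : w ^ 2 - 11 * w - 1 = 0)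
    (hz : z ^ 2 + 22 * z + 125 = 0) {E : ZMod p} (hE : E ≠ 0) (h : IsSquare (z * E)) :
    IsSquare (w * E) := by
  obtain ⟨i, hi⟩ := hm
  obtain ⟨r, hr⟩ := h
  have hz0 : z ≠ 0 := by
    rintro rfl
    have : (5 : ZMod p) ^ 3 = 0 := by linear_combination hz
    exact n5 (pow_eq_zero_iff three_ne_zero |>.1 this)
  have hr0 : r ≠ 0 := by
    rintro rfl
    rw [mul_zero] at hr
    exact (mul_ne_zero hz0 hE) hr
  refine ⟨i * (2 * w - 11 - z) * E / (2 * r), ?_⟩
  rw [div_mul_div_comm, eq_div_iff (mul_ne_zero (mul_ne_zero n2 hr0) (mul_ne_zero n2 hr0))]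
  have e1 : (2 * w - 11 - z) ^ 2 = -4 * w * z := by
    linear_combination 4 * hw + hz
  have e2 : i * (2 * w - 11 - z) * E * (i * (2 * w - 11 - z) * E) =
      (i * i) * (2 * w - 11 - z) ^ 2 * E ^ 2 := by ring
  rw [e2, e1, ← hi]
  linear_combination (-4 * w * E) * hr

/-- the two roots `w` are in the same square class -/
theorem root_class1 (hm : IsSquare (-1 : ZMod p)) {w w' : ZMod p} (hw : w ^ 2 - 11 * w - 1 = 0)
    (hw' : w' ^ 2 - 11 * w' - 1 = 0) (h : IsSquare w) : IsSquare w' := by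
  obtain ⟨i, hi⟩ := hm
  obtain ⟨r, hr⟩ := h
  have e : (w - w') * (w + w' - 11) = 0 := by linear_combination hw - hw'
  rcases mul_eq_zero.1 e with h1 | h1
  · exact ⟨r, by linear_combination hr - h1⟩
  · -- `w * w' = -1`
    have e2 : w * w' = -1 := by linear_combination w * h1 - hw
    have hr0 : r ≠ 0 := by
      rintro rfl
      rw [mul_zero] at hr
      rw [hr, zero_mul] at e2
      exact one_ne_zero (α := ZMod p) (by linear_combination e2)
    refine ⟨i / r, ?_⟩
    rw [div_mul_div_comm, eq_div_iff (mul_ne_zero hr0 hr0)]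
    linear_combination e2 + hi - w' * hr

end

/-- `M` is squarefree -/
theorem sqf_pr {P : Finset ℕ} (hP : ∀ p ∈ P, p.Prime) : Squarefree ((pr P : ℕ) : ℤ) := by
  rw [Int.squarefree_natCast]
  induction P using Finset.induction_on with
  | empty => simp [pr]
  | insert a P ha ih =>
    have e : pr (insert a P) = a * pr P := by
      unfold pr
      rw [Finset.prod_insert ha]
    rw [e, Nat.squarefree_mul_iff]
    refine ⟨?_, (hP a (Finset.mem_insert_self _ _)).squarefree,
      ih fun p hp => hP p (Finset.mem_insert_of_mem hp)⟩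
    rw [(hP a (Finset.mem_insert_self _ _)).coprime_iff_not_dvd]
    exact Pool.Agent.Y664.Z.prime_not_dvd_pr (hP a (Finset.mem_insert_self _ _))
      (fun q hq => hP q (Finset.mem_insert_of_mem hq)) ha

theorem pr_erase {P : Finset ℕ} {p : ℕ} (h : p ∈ P) : pr P = p * pr (P.erase p) := by
  unfold pr
  rw [Finset.mul_prod_erase P (fun r : ℕ => r) h]

theorem pr_erase_sdiff {P J : Finset ℕ} (hJ : J ⊆ P) {p : ℕ} (h : p ∈ J) :
    pr (P.erase p) = pr (J.erase p) * pr (P \ J) := by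
  unfold pr
  rw [← Finset.prod_union]
  · congr 1
    ext k
    simp only [Finset.mem_erase, Finset.mem_union, Finset.mem_sdiff]
    constructor
    · rintro ⟨h1, h2⟩
      by_cases h3 : k ∈ J
      · exact Or.inl ⟨h1, h3⟩
      · exact Or.inr ⟨h2, h3⟩
    · rintro (⟨h1, h2⟩ | ⟨h1, h2⟩)
      · exact ⟨h1, hJ h2⟩
      · exact ⟨fun h3 => h2 (h3 ▸ h), h1⟩
  · rw [Finset.disjoint_left]
    intro k h1 h2
    exact (Finset.mem_sdiff.1 h2).2 (Finset.mem_of_mem_erase h1)

theorem not_dvd_pr {p : ℕ} (hp : p.Prime) {K : Finset ℕ} (hK : ∀ q ∈ K, q.Prime)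
    (h : p ∉ K) : ¬ (p : ℤ) ∣ ((pr K : ℕ) : ℤ) := by
  intro h0
  exact Pool.Agent.Y664.Z.prime_not_dvd_pr hp hK h (by exact_mod_cast h0)

/-- the integer `d` -/
theorem shape {P : Finset ℕ} (hP : ∀ p ∈ P, p.Prime) (h5 : 5 ∉ P) {d : ℤ} (hd : Squarefree d)
    (hpos : 0 < d)
    (h : ∀ q : ℕ, q.Prime → q ≠ 5 → q ∉ P → ¬ (q : ℤ) ∣ d) {J : Finset ℕ}
    (hJ : ∀ p, p ∈ J ↔ p ∈ P ∧ (p : ℤ) ∣ d) :
    ∃ e : ℤ, (e = 1 ∨ e = 5) ∧ d = ((pr J : ℕ) : ℤ) * e := by
  have hJP : ∀ p ∈ J, p.Prime := fun p hp => hP p ((hJ p).1 hp).1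
  obtain ⟨e, he⟩ : ((pr J : ℕ) : ℤ) ∣ d := by
    have h1 : (∏ q ∈ J, q) ∣ d.natAbs := by
      refine Finset.prod_primes_dvd _ (fun p hp => (hJP p hp).prime) ?_
      intro p hp
      exact Int.natCast_dvd.1 ((hJ p).1 hp).2
    exact Int.natCast_dvd.2 h1
  refine ⟨e, ?_, he⟩
  have hJpos : (0 : ℤ) < ((pr J : ℕ) : ℤ) := by
    have : 0 < pr J := by
      unfold pr
      exact Finset.prod_pos fun p hp => (hJP p hp).pos
    exact_mod_cast this
  apply sqf_five (hd.squarefree_of_dvd (Dvd.intro_left _ he.symm))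
  · intro q hq hq5 hqe
    have hqd : (q : ℤ) ∣ d := by
      rw [he]
      exact hqe.mul_left _
    by_cases hqP : q ∈ P
    · have hqJ : q ∈ J := (hJ q).2 ⟨hqP, hqd⟩
      have h1 : (q : ℤ) ∣ ((pr J : ℕ) : ℤ) := by
        rw [pr_erase hqJ]
        push_cast
        exact Dvd.intro _ rfl
      have h2 : (q : ℤ) * q ∣ d := by
        rw [he]
        exact mul_dvd_mul h1 hqe
      have h3 := hd _ h2
      exact (Nat.prime_iff_prime_int.1 hq).not_unit h3
    · exact h q hq hq5 hqP hqd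
  · rw [he] at hpos
    exact (mul_pos_iff_of_pos_left hJpos).1 hpos

open Classical in
theorem t_SELB : Pool.Agent.Z695.S_SELB := by
  intro P hP hne hodd d hd hpos h
  have hPp : ∀ p ∈ P, p.Prime := fun p hp => (hP p hp).1
  have h5P : 5 ∉ P := fun h1 => by
    have := (hP 5 h1).2
    omega
  have h2P : 2 ∉ P := fun h1 => by
    have := (hP 2 h1).2
    omega
  have hM := sqf_pr hPp
  have hM0 := hM.ne_zero
  -- facts on the primes of `P`
  have hs5 : ∀ p ∈ P, IsSquare (5 : ZMod p) := by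
    intro p hp
    have h1 := (hP p hp).2
    haveI := Fact.mk (hPp p hp)
    haveI : Fact (Nat.Prime 5) := ⟨Nat.prime_five⟩
    have h2 : legendreSym p 5 = 1 := by
      have h3 := jacobiSym.quadratic_reciprocity_one_mod_four (a := 5) (b := p) (by norm_num)
        (Nat.odd_iff.2 (by omega))
      rw [← jacobiSym.legendreSym.to_jacobiSym] at h3
      push_cast at h3
      rw [h3, jacobiSym.mod_left]
      have h4 : ((p : ℤ) % ((5 : ℕ) : ℤ)) = 1 ∨ ((p : ℤ) % ((5 : ℕ) : ℤ)) = 4 := by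
        push_cast
        omega
      rcases h4 with h4 | h4 <;> rw [h4] <;> decide +kernel
    have h3 : ((5 : ℤ) : ZMod p) ≠ 0 := by
      intro h0
      have h4 := (ZMod.intCast_zmod_eq_zero_iff_dvd _ _).1 h0
      have h5 : p ∣ 5 := by exact_mod_cast h4
      have h6 := (Nat.prime_dvd_prime_iff_eq (hPp p hp) Nat.prime_five).1 h5
      omega
    have h4 := (legendreSym.eq_one_iff p h3).1 h2
    push_cast at h4
    exact h4
  have hsm : ∀ p ∈ P, IsSquare (-1 : ZMod p) := by
    intro p hp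
    haveI := Fact.mk (hPp p hp)
    rw [ZMod.exists_sq_eq_neg_one_iff]
    have := (hP p hp).2
    omega
  have hne5 : ∀ p ∈ P, p ≠ 5 := fun p hp h0 => h5P (h0 ▸ hp)
  have hne2 : ∀ p ∈ P, p ≠ 2 := fun p hp h0 => h2P (h0 ▸ hp)
  -- the shape of `d`
  set J : Finset ℕ := P.filter fun p : ℕ => (p : ℤ) ∣ d with hJdef
  have hJ : ∀ p, p ∈ J ↔ p ∈ P ∧ (p : ℤ) ∣ d := fun p => by rw [hJdef, Finset.mem_filter]
  have hJP : J ⊆ P := Finset.filter_subset _ _
  obtain ⟨e, he, hde⟩ := shape hPp h5P hd hpos (fun q hq hq5 hqP => by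
    haveI := Fact.mk hq
    apply locA_dvd (p := q) 22 125 ((pr P : ℕ) : ℤ) d hM0 hd (nd125 hq5)
    · intro h1
      exact absurd h1 (not_dvd_pr hq hPp hqP)
    · have h1 := h q
      push_cast at h1 ⊢
      exact h1) hJ
  -- `e` is a square modulo the primes of `P`, prime to them
  have hes : ∀ p ∈ P, IsSquare (e : ZMod p) ∧ (e : ZMod p) ≠ 0 := by
    intro p hp
    haveI := Fact.mk (hPp p hp)
    rcases he with rfl | rfl
    · push_cast
      exact ⟨⟨1, by ring⟩, one_ne_zero⟩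
    · push_cast
      refine ⟨hs5 p hp, ?_⟩
      intro h1
      have : ((5 : ℕ) : ZMod p) = 0 := by exact_mod_cast h1
      rw [ZMod.natCast_eq_zero_iff] at this
      exact hne5 p hp ((Nat.prime_dvd_prime_iff_eq (hPp p hp) (by norm_num)).1 this)
  have cancel : ∀ p ∈ P, ∀ a b : ZMod p, IsSquare (a * b) → IsSquare b → b ≠ 0 → IsSquare a := by
    intro p hp a b h1 h2 h3
    haveI := Fact.mk (hPp p hp)
    obtain ⟨r, hr⟩ := h1
    obtain ⟨s, hs⟩ := h2
    have hs0 : s ≠ 0 := by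
      rintro rfl
      rw [mul_zero] at hs
      exact h3 hs
    refine ⟨r / s, ?_⟩
    rw [div_mul_div_comm, eq_div_iff (mul_ne_zero hs0 hs0), ← hr, ← hs]
  have hJ0 : J = ∅ := by
    refine Pool.Agent.Y664.Z.lin lres xw P J hodd hJP ?_ ?_
    · intro p hp
      rw [Finset.mem_sdiff] at hp
      obtain ⟨hpP, hpJ⟩ := hp
      have hpp := hPp p hpP
      haveI := Fact.mk hpp
      have hpd : ¬ (p : ℤ) ∣ d := fun h1 => hpJ ((hJ p).2 ⟨hpP, h1⟩)
      have hpM : (p : ℤ) ∣ ((pr P : ℕ) : ℤ) := by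
        rw [pr_erase hpP]
        push_cast
        exact Dvd.intro _ rfl
      have h1 := locC2 (p := p) hM hpM (hne2 p hpP) (hne5 p hpP) (hs5 p hpP) hpd (h p)
      rw [hde] at h1
      push_cast at h1
      have h2 := cancel p hpP _ _ h1 (hes p hpP).1 (hes p hpP).2
      exact (Pool.Agent.Y664.Z.parity hpp (by have := (hP p hpP).2; omega) J
        (fun q hq => ⟨hPp q (hJP hq), by have := (hP q (hJP hq)).2; omega⟩) hpJ).1 h2
    · intro p hp
      have hpP := hJP hp
      have hpp := hPp p hpP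
      haveI := Fact.mk hpp
      have n2 : (2 : ZMod p) ≠ 0 := by
        intro h1
        have : ((2 : ℕ) : ZMod p) = 0 := by exact_mod_cast h1
        rw [ZMod.natCast_eq_zero_iff] at this
        exact hne2 p hpP ((Nat.prime_dvd_prime_iff_eq hpp (by norm_num)).1 this)
      have n5 : (5 : ZMod p) ≠ 0 := by
        intro h1
        have : ((5 : ℕ) : ZMod p) = 0 := by exact_mod_cast h1
        rw [ZMod.natCast_eq_zero_iff] at this
        exact hne5 p hpP ((Nat.prime_dvd_prime_iff_eq hpp (by norm_num)).1 this)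
      have hM' : ¬ (p : ℤ) ∣ ((pr (P.erase p) : ℕ) : ℤ) :=
        not_dvd_pr hpp (fun q hq => hPp q (Finset.mem_of_mem_erase hq)) (Finset.notMem_erase p P)
      have hJ' : ¬ (p : ℤ) ∣ ((pr (J.erase p) : ℕ) : ℤ) :=
        not_dvd_pr hpp (fun q hq => hPp q (hJP (Finset.mem_of_mem_erase hq)))
          (Finset.notMem_erase p J)
      have he' : ¬ (p : ℤ) ∣ e := fun h1 =>
        (hes p hpP).2 ((ZMod.intCast_zmod_eq_zero_iff_dvd _ _).2 h1)
      have hd' : ¬ (p : ℤ) ∣ ((pr (J.erase p) : ℕ) : ℤ) * e := by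
        intro h1
        rcases (Nat.prime_iff_prime_int.1 hpp).dvd_or_dvd h1 with h2 | h2
        · exact hJ' h2
        · exact he' h2
      obtain ⟨z, hz1, hz2⟩ := locB (p := p) 22 125 ((pr (P.erase p) : ℕ) : ℤ)
        (((pr (J.erase p) : ℕ) : ℤ) * e) hM' hd' (nd125 (hne5 p hpP)) (by
          have h1 := h p
          have e1 : ((pr P : ℕ) : ℤ) = (p : ℤ) * ((pr (P.erase p) : ℕ) : ℤ) := by
            rw [pr_erase hpP]
            push_cast
            ring
          have e2 : d = (p : ℤ) * (((pr (J.erase p) : ℕ) : ℤ) * e) := by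
            rw [hde, pr_erase hp]
            push_cast
            ring
          rw [e1, e2] at h1
          push_cast at h1 ⊢
          exact h1)
      push_cast at hz1 hz2
      rw [pr_erase_sdiff hJP hp] at hz2
      push_cast at hz2
      have hK : ((pr (P \ J) : ℕ) : ZMod p) ≠ 0 :=
        Pool.Agent.Y664.Z.cast_pr_ne hpp (fun q hq => hPp q (Finset.mem_sdiff.1 hq).1)
          (fun h1 => (Finset.mem_sdiff.1 h1).2 hp)
      have hJe : ((pr (J.erase p) : ℕ) : ZMod p) ≠ 0 :=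
        Pool.Agent.Y664.Z.cast_pr_ne hpp (fun q hq => hPp q (hJP (Finset.mem_of_mem_erase hq)))
          (Finset.notMem_erase p J)
      have hz3 : IsSquare (z * ((pr (P \ J) : ℕ) : ZMod p)) := by
        refine cancel p hpP _ (((pr (J.erase p) : ℕ) : ZMod p) ^ 2 * (e : ZMod p)) ?_ ?_ ?_
        · convert hz2 using 1
          ring
        · exact (IsSquare.sq _).mul (hes p hpP).1
        · exact mul_ne_zero (pow_ne_zero 2 hJe) (hes p hpP).2
      have key : ∀ w : ZMod p, w ^ 2 - 11 * w - 1 = 0 →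
          IsSquare (w * ((pr (P \ J) : ℕ) : ZMod p)) := fun w hw =>
        root_class n2 n5 (hsm p hpP) hw hz1 hK hz3
      have hpar := Pool.Agent.Y664.Z.parity hpp (by have := (hP p hpP).2; omega) (P \ J)
        (fun q hq => ⟨hPp q (Finset.mem_sdiff.1 hq).1,
          by have := (hP q (Finset.mem_sdiff.1 hq).1).2; omega⟩)
        (fun h1 => (Finset.mem_sdiff.1 h1).2 hp)
      unfold Pool.Agent.Z695.xw
      by_cases hx : ∀ w : ZMod p, w ^ 2 - 11 * w - 1 = 0 → ¬ IsSquare w
      · rw [if_pos hx, Int.even_add]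
        obtain ⟨s, hs⟩ := hs5 p hpP
        have hroot : ((11 + 5 * s) / 2 : ZMod p) ^ 2 - 11 * ((11 + 5 * s) / 2) - 1 = 0 := by
          field_simp
          linear_combination (-25) * hs
        have h6 : ¬ Even (∑ q ∈ P \ J, lres p q) := by
          intro h7
          have h8 := hpar.2 h7
          exact hx _ hroot (cancel p hpP _ _ (key _ hroot) h8 hK)
        constructor
        · intro h7
          exact absurd h7 h6
        · intro h7
          exact absurd h7 (by decide)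
      · rw [if_neg hx, add_zero]
        push Not at hx
        obtain ⟨w, hw, hws⟩ := hx
        apply hpar.1
        have hw0 : w ≠ 0 := by
          rintro rfl
          exact one_ne_zero (α := ZMod p) (by linear_combination -hw)
        refine cancel p hpP _ w ?_ hws hw0
        rw [mul_comm]
        exact key w hw
  have hprJ : pr J = 1 := by
    rw [hJ0]
    simp [pr]
  rw [hprJ] at hde
  push_cast at hde
  rw [one_mul] at hde
  rw [hde]
  exact he

end Pool.Agent.Y421.Z695
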